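import Pool.Agent.Helper51.PP.Spec

set_option autoImplicit false

namespace Pool.Agent.Helper83.PC.CH3

open Pool.Agent.Helper51.PP

theorem PRn_add {X E : Type} [Fintype E] (nx : X → E → X) (f : X → ℝ) (m n : ℕ) :
    PRn nx f (m + n) = PRn nx (PRn nx f m) n := by
  induction n with
  | zero => rfl
  | succ n ih =>
    change PR nx (PRn nx f (m + n)) = PR nx (PRn nx (PRn nx f m) n)
    rw [ih]

theorem main (h1 : S_CH1) : S_CH3 := by
  intro X E _ _ nx rev hR x0 y m n
  obtain ⟨-, hf1, -, hE, -, -⟩ := h1 nx rev hR y n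
  obtain ⟨-, hf2, -, -, -, -⟩ := h1 nx rev hR x0 m
  have e1 : pk nx x0 (m + n) y = ∑' z, pk nx y n z * pk nx x0 m z := by
    have : pk nx x0 (m + n) y = PRn nx (pk nx x0 m) n y := by
      unfold pk
      rw [PRn_add]
    rw [this, hE]
  classical
  let S : Finset X := hf1.toFinset ∪ hf2.toFinset
  have hz1 : ∀ z, z ∉ S → pk nx y n z = 0 := by
    intro z hz
    by_contra h
    exact hz (Finset.mem_union_left _ (by simpa using h))
  have hz2 : ∀ z, z ∉ S → pk nx x0 m z = 0 := by
    intro z hz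
    by_contra h
    exact hz (Finset.mem_union_right _ (by simpa using h))
  rw [e1, tsum_eq_sum (s := S) (fun z hz => by rw [hz1 z hz, zero_mul]),
    tsum_eq_sum (s := S) (fun z hz => by rw [hz2 z hz]; simp),
    tsum_eq_sum (s := S) (fun z hz => by rw [hz1 z hz]; simp)]
  have := Real.sum_mul_le_sqrt_mul_sqrt S (fun z => pk nx x0 m z) (fun z => pk nx y n z)
  refine le_trans (le_of_eq ?_) this
  exact Finset.sum_congr rfl (fun z _ => mul_comm _ _)

end Pool.Agent.Helper83.PC.CH3
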