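import Pool.Agent.Helper51.PP.Spec

set_option autoImplicit false

namespace Pool.Agent.Helper83.PC.CH5

open Pool.Agent.Helper51.PP

/-- the scalar inequality -/
theorem scal (a m : ℝ) (ha : 0 ≤ a) (hm : 0 < m) :
    (a - m) ^ 2 / (a + m) / 2 ≤ -Real.negMulLog a - a * Real.log m - a + m := by
  have h1 : (√a - √m) ^ 2 ≤ -Real.negMulLog a - a * Real.log m - a + m := by
    have sm : √m ^ 2 = m := Real.sq_sqrt hm.le
    have sa : √a ^ 2 = a := Real.sq_sqrt ha
    rcases ha.eq_or_lt with h0 | h0
    · subst h0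
      simp [Real.negMulLog, sm]
    · have hsm : 0 < √m := Real.sqrt_pos.2 hm
      have hsa : 0 < √a := Real.sqrt_pos.2 h0
      -- log a - log m ≥ 2 (1 - √m/√a)
      have hl : 2 * (1 - √m / √a) ≤ Real.log a - Real.log m := by
        have q1 : Real.log (√m / √a) ≤ √m / √a - 1 := Real.log_le_sub_one_of_pos (by positivity)
        rw [Real.log_div hsm.ne' hsa.ne', Real.log_sqrt hm.le, Real.log_sqrt h0.le] at q1
        linarith
      have hl2 := mul_le_mul_of_nonneg_left hl h0.le
      have e1 : a * (2 * (1 - √m / √a)) = 2 * a - 2 * (√a * √m) := by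
        have : a * (√m / √a) = √a * √m := by
          rw [mul_div_assoc', div_eq_iff hsa.ne']
          nlinarith [sa]
        linear_combination (-2) * this
      rw [e1] at hl2
      unfold Real.negMulLog
      nlinarith [hl2, sa, sm]
  refine le_trans ?_ h1
  have sm : √m ^ 2 = m := Real.sq_sqrt hm.le
  have sa : √a ^ 2 = a := Real.sq_sqrt ha
  have hpos : 0 < a + m := by linarith
  rw [div_div, div_le_iff₀ (by positivity)]
  have e2 : (a - m) ^ 2 = (√a - √m) ^ 2 * (√a + √m) ^ 2 := by
    have : (√a - √m) * (√a + √m) = a - m := by linear_combination sa - sm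
    rw [← mul_pow, this]
  rw [e2]
  apply mul_le_mul_of_nonneg_left _ (sq_nonneg _)
  nlinarith [sq_nonneg (√a - √m), sa, sm]

/-- the inequality at one site -/
theorem site {E : Type} [Fintype E] [Nonempty E] (a : E → ℝ) (ha : ∀ e, 0 ≤ a e) :
    (1 / 2) * ((Fintype.card E : ℝ)⁻¹ * ∑ e, (a e - (Fintype.card E : ℝ)⁻¹ * ∑ e', a e') ^ 2 /
      (a e + (Fintype.card E : ℝ)⁻¹ * ∑ e', a e')) ≤
    Real.negMulLog ((Fintype.card E : ℝ)⁻¹ * ∑ e', a e') -
      (Fintype.card E : ℝ)⁻¹ * ∑ e, Real.negMulLog (a e) := by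
  set m : ℝ := (Fintype.card E : ℝ)⁻¹ * ∑ e', a e' with hm
  have hc : (0 : ℝ) < Fintype.card E := by exact_mod_cast Fintype.card_pos
  have hsum : ∑ e', a e' = Fintype.card E * m := by
    rw [hm, mul_inv_cancel_left₀ hc.ne']
  have hm0 : 0 ≤ m := by
    rw [hm]; exact mul_nonneg (by positivity) (Finset.sum_nonneg fun e _ => ha e)
  rcases hm0.eq_or_lt with h0 | h0
  · have hz : ∀ e, a e = 0 := by
      intro e
      have : ∑ e', a e' = 0 := by rw [hsum, ← h0, mul_zero]
      exact (Finset.sum_eq_zero_iff_of_nonneg (fun e _ => ha e)).1 this e (Finset.mem_univ e)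
    rw [← h0]
    simp [hz]
  · have hs : ∑ e, (a e - m) ^ 2 / (a e + m) / 2 ≤
        ∑ e, (-Real.negMulLog (a e) - a e * Real.log m - a e + m) :=
      Finset.sum_le_sum fun e _ => scal (a e) m (ha e) h0
    have e1 : ∑ e, (-Real.negMulLog (a e) - a e * Real.log m - a e + m) =
        - ∑ e, Real.negMulLog (a e) - (Fintype.card E * m) * Real.log m := by
      rw [Finset.sum_add_distrib, Finset.sum_sub_distrib, Finset.sum_sub_distrib,
        Finset.sum_neg_distrib, ← Finset.sum_mul, hsum]
      simp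
    have e2 : ∑ e, (a e - m) ^ 2 / (a e + m) / 2 = (1 / 2) * ∑ e, (a e - m) ^ 2 / (a e + m) := by
      rw [← Finset.sum_div]; ring
    rw [e1, e2] at hs
    have hs2 := mul_le_mul_of_nonneg_left hs (inv_nonneg.2 hc.le)
    have e3 : (Fintype.card E : ℝ)⁻¹ * (- ∑ e, Real.negMulLog (a e) -
        (Fintype.card E * m) * Real.log m) =
        Real.negMulLog m - (Fintype.card E : ℝ)⁻¹ * ∑ e, Real.negMulLog (a e) := by
      unfold Real.negMulLog
      field_simp
      ring
    rw [e3] at hs2
    refine le_trans (le_of_eq ?_) hs2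
    ring

theorem main (h1 : S_CH1) : S_CH5 := by
  intro X E _ _ nx rev hR x0 n
  classical
  obtain ⟨hp, hf, -, -, -, -⟩ := h1 nx rev hR x0 n
  obtain ⟨hp', hf', -, -, -, -⟩ := h1 nx rev hR x0 (n + 1)
  have hc : (0 : ℝ) < Fintype.card E := by exact_mod_cast Fintype.card_pos
  let σ : E → (X ≃ X) := fun e =>
    { toFun := fun y => nx y e
      invFun := fun y => nx y (rev e)
      left_inv := fun y => hR.back y e
      right_inv := fun y => by
        have := hR.back y (rev e)
        rwa [hR.inv] at this }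
  have hstep : ∀ y, pk nx x0 (n + 1) y = (Fintype.card E : ℝ)⁻¹ * ∑ e, pk nx x0 n (nx y e) :=
    fun y => rfl
  have hfe : ∀ e, (Function.support (fun y => pk nx x0 n (nx y e))).Finite := by
    intro e
    have : Function.support (fun y => pk nx x0 n (nx y e)) =
        (σ e) ⁻¹' Function.support (pk nx x0 n) := rfl
    rw [this]
    exact hf.preimage (σ e).injective.injOn
  -- entropies
  have hs1 : Summable (fun y => Real.negMulLog (pk nx x0 (n + 1) y)) := by
    apply summable_of_hasFiniteSupport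
    exact hf'.subset (fun y hy => by
      intro h
      apply hy
      change Real.negMulLog (pk nx x0 (n + 1) y) = 0
      rw [h]; simp)
  have hs2 : ∀ e, Summable (fun y => Real.negMulLog (pk nx x0 n (nx y e))) := by
    intro e
    apply summable_of_hasFiniteSupport
    exact (hfe e).subset (fun y hy => by
      intro h
      apply hy
      change Real.negMulLog (pk nx x0 n (nx y e)) = 0
      have h' : pk nx x0 n (nx y e) = 0 := h
      rw [h']; simp)
  have hs3 : ∀ e, Summable (fun y => (pk nx x0 n (nx y e) - pk nx x0 (n + 1) y) ^ 2 /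
      (pk nx x0 n (nx y e) + pk nx x0 (n + 1) y)) := by
    intro e
    apply summable_of_hasFiniteSupport
    refine ((hfe e).union hf').subset (fun y hy => ?_)
    by_contra h
    rw [Set.mem_union, not_or] at h
    obtain ⟨ha, hb⟩ := h
    have ha' : pk nx x0 n (nx y e) = 0 := by simpa using ha
    have hb' : pk nx x0 (n + 1) y = 0 := by simpa using hb
    apply hy
    change (pk nx x0 n (nx y e) - pk nx x0 (n + 1) y) ^ 2 /
      (pk nx x0 n (nx y e) + pk nx x0 (n + 1) y) = 0
    rw [ha', hb']; simp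
  have hen : ∀ e, ∑' y, Real.negMulLog (pk nx x0 n (nx y e)) = ent nx x0 n := fun e =>
    (σ e).tsum_eq (fun y => Real.negMulLog (pk nx x0 n y))
  have e1 : ent nx x0 n = (Fintype.card E : ℝ)⁻¹ * ∑ e : E,
      ∑' y, Real.negMulLog (pk nx x0 n (nx y e)) := by
    simp only [hen]
    rw [Finset.sum_const, Finset.card_univ, nsmul_eq_mul, inv_mul_cancel_left₀ hc.ne']
  have e2 : ent nx x0 (n + 1) - ent nx x0 n = ∑' y, (Real.negMulLog (pk nx x0 (n + 1) y) -
      (Fintype.card E : ℝ)⁻¹ * ∑ e, Real.negMulLog (pk nx x0 n (nx y e))) := by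
    rw [Summable.tsum_sub hs1 ((summable_sum fun e _ => hs2 e).mul_left _), tsum_mul_left,
      Summable.tsum_finsetSum (fun e _ => hs2 e), ← e1]
    rfl
  have e3 : (1 / 2) * ((Fintype.card E : ℝ)⁻¹ * ∑ e, ∑' y,
      (pk nx x0 n (nx y e) - pk nx x0 (n + 1) y) ^ 2 /
        (pk nx x0 n (nx y e) + pk nx x0 (n + 1) y)) =
      ∑' y, (1 / 2) * ((Fintype.card E : ℝ)⁻¹ * ∑ e,
        (pk nx x0 n (nx y e) - pk nx x0 (n + 1) y) ^ 2 /
        (pk nx x0 n (nx y e) + pk nx x0 (n + 1) y)) := by
    rw [tsum_mul_left, tsum_mul_left, Summable.tsum_finsetSum (fun e _ => hs3 e)]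
  rw [e2, e3]
  refine Summable.tsum_le_tsum (fun y => ?_) ?_ ?_
  · have := site (fun e => pk nx x0 n (nx y e)) (fun e => hp _)
    simp only [← hstep] at this
    exact this
  · exact ((summable_sum fun e _ => hs3 e).mul_left _).mul_left _
  · exact hs1.sub ((summable_sum fun e _ => hs2 e).mul_left _)

end Pool.Agent.Helper83.PC.CH5
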